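import Pool.Agent.Work.MP_73831e_pr.F.S2.Nu
import Pool.Agent.Work.MP_73831e_pr.Count

/-!
MODULE S2/Exit (S, abstract).  An ordering leaves a decreasing family at most once.

By `Wsum_eq` (Count) the left side times `N!` is the number of pairs `(ω, t)` with
`A (pre ω t)`, `¬ A (insert (ω t) (pre ω t))`, `B (pre ω t) (ω t)`; `insert (ω t) (pre ω t) =
pre ω (t + 1)` (`pre_succ`).  For each `ω` there is at most one such `t`, since `A` is decreasing
(compare `deaths_upper` in D1).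
-/

open Finset
open scoped Classical Nat

namespace Pool.Agent.Work.MP_73831e_pr.F

theorem exit_prob {P : Type} [Fintype P] {A : Finset P → Prop} (hA : ∀ E F, E ⊆ F → A F → A E)
    (B : Finset P → P → Prop) :
    Wf (fun (E : Finset P) e => A E ∧ ¬ A (insert e E) ∧ B E e) ≤
      prob (fun ω : Ordr P => ∃ t : Fin (Fintype.card P), A (pre ω t) ∧ ¬ A (pre ω ((t : ℕ) + 1)) ∧
        B (pre ω t) (ω t)) := by
  have hW : Wf (fun (E : Finset P) e => A E ∧ ¬ A (insert e E) ∧ B E e) =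
      (Wsum (fun (E : Finset P) e => A E ∧ ¬ A (insert e E) ∧ B E e) : ℝ) /
        ((Fintype.card P)! : ℝ) := by
    unfold Wf Wsum wf
    rw [Nat.cast_sum, Finset.sum_div]
    refine Finset.sum_congr rfl fun E _ => ?_
    rw [Nat.cast_sum, Finset.sum_div]
  rw [hW]
  unfold prob
  refine div_le_div_of_nonneg_right ?_ (Nat.cast_nonneg _)
  refine Nat.cast_le.2 ?_
  rw [Wsum_eq]
  have key : ∀ z : {z : Ordr P × Fin (Fintype.card P) //
      A (pre z.1 z.2) ∧ ¬ A (insert (z.1 z.2) (pre z.1 z.2)) ∧ B (pre z.1 z.2) (z.1 z.2)},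
      ¬ A (pre z.1.1 (z.1.2 + 1)) := by
    intro z
    rw [pre_succ z.1.1 z.1.2.2]
    exact z.2.2.1
  refine Nat.card_le_card_of_injective
    (fun z => ⟨z.1.1, z.1.2, z.2.1, key z, z.2.2.2⟩) ?_
  have hlt : ∀ z w : {z : Ordr P × Fin (Fintype.card P) //
      A (pre z.1 z.2) ∧ ¬ A (insert (z.1 z.2) (pre z.1 z.2)) ∧ B (pre z.1 z.2) (z.1 z.2)},
      z.1.1 = w.1.1 → (z.1.2 : ℕ) < w.1.2 → False := by
    intro z w h1 h2
    apply key z
    refine hA _ _ (pre_mono _ (Nat.succ_le_of_lt h2)) ?_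
    rw [h1]
    exact w.2.1
  intro z w h
  have h1 : z.1.1 = w.1.1 := congrArg Subtype.val h
  apply Subtype.ext
  apply Prod.ext h1
  apply Fin.ext
  rcases lt_trichotomy (z.1.2 : ℕ) w.1.2 with h2 | h2 | h2
  · exact (hlt z w h1 h2).elim
  · exact h2
  · exact (hlt w z h1.symm h2).elim

end Pool.Agent.Work.MP_73831e_pr.F
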