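import Pool.Agent.Work.MP_73831e_pr.F.S2.Flux
import Pool.Agent.Work.MP_73831e_pr.F.S2.Exit
import Pool.Agent.Work.MP_73831e_pr.F.P.Plant
import Pool.Agent.Work.MP_73831e_pr.F.K.Small

/-!
MODULE S2/Disc (S-M).  Discarding atypical pairs and pairs with few clusters.

`Gp K₁ K₃ K₄ L m R K D x`: `D` is typical, and for every edge `e ∈ D` at `x` the colourings of
`D.erase e` do not form at most `R` clusters.
By `mass_split` the difference is at most the mass of `Q ∧ ¬ Gp`.  Apply `mass_flux` with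
`B E e := ¬ Ty (insert e E) ∨ Clu m R K E` (if `¬ Ty D`, take any edge `e ∈ D` at `x`, there is one as
`nb D x` is nonempty, `insert e (D.erase e) = D`; otherwise there is `e ∈ D` at `x` with
`Clu (D.erase e)`), and `exit_prob` with `A = Fa m M` (decreasing: `Alive.anti`, `Um.mono`) and
`B' E e := E.card < C n ∧ B E e`.  If `t < C n` (note `|pre ω t| = t`) is the exit time:
either `¬ Ty (pre ω (t+1))`, then `¬ Ty (pre ω (C n))` as `Ty` is decreasing (`Ty.anti`) and
`pre ω (t + 1) ⊆ pre ω (C n)`; or `Fa (pre ω t) ∧ Clu m R K (pre ω t)`, `t ≤ C n`.  Use `prob_mono`,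
`prob_or`.
-/

open Finset
open scoped Classical Nat

namespace Pool.Agent.Work.MP_73831e_pr.F

/-- Good pairs. -/
def Gp {n : ℕ} (K₁ K₃ K₄ L m R K : ℕ) (D : Finset (Pr n)) (x : Fin n) : Prop :=
  Ty K₁ K₃ K₄ L D ∧ ∀ e ∈ D, x ∈ e.1 → ¬ Clu m R K (D.erase e)

theorem Fa.anti {n m M : ℕ} {E F : Finset (Pr n)} (h : E ⊆ F) (hF : Fa m M F) : Fa m M E := by
  exact ⟨hF.1.anti (gr_mono h), fun hU => hF.2 (hU.mono (gr_mono h))⟩

theorem discard {n m M C K₁ K₃ K₄ L R K : ℕ} (Q : Finset (Pr n) → Fin n → Prop) :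
    mass m M (C * n) Q ≤ mass m M (C * n) (fun D x => Q D x ∧ Gp K₁ K₃ K₄ L m R K D x) +
      8 * C * err m M C K₁ K₃ K₄ L R K n := by
  refine (mass_split Q (Gp K₁ K₃ K₄ L m R K)).trans (add_le_add le_rfl ?_)
  have h1 := mass_flux (n := n) (m := m) (M := M) (C := C)
    (Q := fun D x => Q D x ∧ ¬ Gp K₁ K₃ K₄ L m R K D x)
    (B := fun E e => ¬ Ty K₁ K₃ K₄ L (insert e E) ∨ Clu m R K E) (by
      rintro D x hFC ⟨-, hG⟩
      by_cases hT : Ty K₁ K₃ K₄ L D
      · have h2 : ∃ e ∈ D, x ∈ e.1 ∧ Clu m R K (D.erase e) := by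
          by_contra hcon
          apply hG
          refine ⟨hT, fun e he hx hC => hcon ⟨e, he, hx, hC⟩⟩
        obtain ⟨e, he, hx, hC⟩ := h2
        exact ⟨e, he, hx, Or.inr hC⟩
      · obtain ⟨y, hy⟩ := hFC.2.1
        have h2 : (gr D).Adj x y := by
          unfold nb at hy
          exact (mem_filter.1 hy).2
        obtain ⟨e, he, hex⟩ := gr_adj'.1 h2
        refine ⟨e, he, ?_, Or.inl ?_⟩
        · rw [hex]
          exact Sym2.mem_mk_left x y
        · rwa [insert_erase he])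
  refine h1.trans (mul_le_mul_of_nonneg_left ?_ (by positivity))
  have h2 := exit_prob (P := Pr n) (A := Fa m M) (fun E F h hF => hF.anti h)
    (fun E e => E.card < C * n ∧ (¬ Ty K₁ K₃ K₄ L (insert e E) ∨ Clu m R K E))
  refine (le_of_eq ?_).trans (h2.trans ?_)
  · congr!
  unfold err
  refine (prob_mono ?_).trans (prob_or _ _)
  rintro ω ⟨t, hA, -, hc, hB⟩
  have ht : (pre ω (t : ℕ)).card = t := pre_card ω t.2.le
  rw [ht] at hc
  rcases hB with hB | hB
  · left
    intro hTy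
    apply hB
    have h3 := pre_succ ω t.2
    rw [Fin.eta] at h3
    rw [← h3]
    exact hTy.anti (pre_mono ω hc)
  · right
    exact ⟨t, hc.le, hA, hB⟩

end Pool.Agent.Work.MP_73831e_pr.F
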