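import Pool.Agent.Work.MP_73831e_pr.F.S2.SupNu

/-!
MODULE S2/Smass (M).  From star-critical pairs to fully critical pairs.

Let `T = C n`, `N = NN n`.  Let `(D, x)` be counted in `smass`: `D \ st x ∈ Fa`, `D ∉ Fa`, `Q D x`,
`|D| ≤ T`.  Choose `A` with `D \ st x ⊆ A ⊆ D`, `A ∉ Fa`, of minimal cardinality.  Then `FC A x`:
`nb A x` is nonempty (else `A = D \ st x ∈ Fa`); for `e ∈ A`, `x ∈ e`, the set `A.erase e` still
contains `D \ st x`, so it is in `Fa` by minimality.  `Q A x` by `Hered`.  `D = A ∪ Y` with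
`Y = D \ A ⊆ st x \ A`.  So for each `x`
`∑_{D counted} nu D ≤ ∑_{A : FC A x, Q A x, |A| ≤ T} ∑_{Y ⊆ st x \ A, |A ∪ Y| ≤ T} nu (A ∪ Y)
 ≤ (N / (N - T)) ^ (n - 1) ∑_A nu A` by `sup_nu` (`|st x| = n - 1` is `star_card` in B4a, or bound it:
an edge at `x` is determined by its other end, which is different from `x`; `N / (N - T) ≥ 1`).
Finally `(N / (N - T)) ^ (n - 1) ≤ exp ((n - 1) T / (N - T)) = exp (2 C N / (N - T)) ≤ exp (4 C)` for `n`
large (`n (n - 1) = 2 N`, `N ≥ 2 T`; `1 + y ≤ exp y`).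
-/

open Finset
open scoped Classical Nat

namespace Pool.Agent.Work.MP_73831e_pr.F

private theorem st_card_le {n : ℕ} (x : Fin n) : (st x).card ≤ n - 1 := by
  have h1 : (st x).card ≤ (univ.erase x : Finset (Fin n)).card := by
    apply Finset.card_le_card_of_injOn
      (fun e : Pr n => if h : x ∈ e.1 then Sym2.Mem.other h else x)
    · intro e he
      have hx : x ∈ e.1 := by
        have := Finset.mem_coe.1 he
        simpa [st] using this
      rw [Finset.mem_coe, Finset.mem_erase]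
      refine ⟨?_, Finset.mem_univ _⟩
      simp only [hx, dif_pos]
      exact Sym2.other_ne e.2 hx
    · intro e he e' he' hee
      have hx : x ∈ e.1 := by
        have := Finset.mem_coe.1 he
        simpa [st] using this
      have hx' : x ∈ e'.1 := by
        have := Finset.mem_coe.1 he'
        simpa [st] using this
      simp only [hx, hx', dif_pos] at hee
      apply Subtype.ext
      rw [← Sym2.other_spec hx, ← Sym2.other_spec hx', hee]
  rwa [Finset.card_erase_of_mem (Finset.mem_univ x), Finset.card_univ, Fintype.card_fin] at h1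

private theorem exists_min {n : ℕ} (m M : ℕ) {Q : Finset (Pr n) → Fin n → Prop} (hQ : Hered Q)
    (D : Finset (Pr n)) (x : Fin n) (h1 : Fa m M (D \ st x)) (h2 : ¬ Fa m M D) (h3 : Q D x) :
    ∃ A, A ⊆ D ∧ D \ st x ⊆ A ∧ FC m M A x ∧ Q A x := by
  obtain ⟨A, hA, hmin⟩ := Finset.exists_min_image
    (D.powerset.filter (fun A => D \ st x ⊆ A ∧ ¬ Fa m M A)) Finset.card
    ⟨D, by
      rw [Finset.mem_filter, Finset.mem_powerset]
      exact ⟨Finset.Subset.refl _, Finset.sdiff_subset, h2⟩⟩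
  rw [Finset.mem_filter, Finset.mem_powerset] at hA
  obtain ⟨hAD, hDA, hAF⟩ := hA
  refine ⟨A, hAD, hDA, ⟨hAF, ?_, ?_⟩, hQ D A x hAD hDA h3⟩
  · by_contra hne
    rw [Finset.not_nonempty_iff_eq_empty] at hne
    apply hAF
    have hA2 : A = D \ st x := by
      apply Finset.Subset.antisymm _ hDA
      intro e he
      rw [Finset.mem_sdiff]
      refine ⟨hAD he, fun hs => ?_⟩
      have hx : x ∈ e.1 := by simpa [st] using hs
      have hy : Sym2.Mem.other hx ∈ nb A x := by
        rw [nb, Finset.mem_filter]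
        exact ⟨Finset.mem_univ _, gr_adj'.2 ⟨e, he, (Sym2.other_spec hx).symm⟩⟩
      rw [hne] at hy
      exact Finset.notMem_empty _ hy
    rw [hA2]
    exact h1
  · intro e he hx
    by_contra hF
    have h4 := hmin (A.erase e) (by
      rw [Finset.mem_filter, Finset.mem_powerset]
      refine ⟨(Finset.erase_subset _ _).trans hAD, ?_, hF⟩
      intro d hd
      rw [Finset.mem_erase]
      refine ⟨?_, hDA hd⟩
      rintro rfl
      rw [Finset.mem_sdiff] at hd
      apply hd.2
      simpa [st] using hx)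
    have h5 := Finset.card_erase_lt_of_mem he
    omega

private theorem per_vertex {n : ℕ} (m M T : ℕ) (hT : T < Fintype.card (Pr n))
    {Q : Finset (Pr n) → Fin n → Prop} (hQ : Hered Q) (x : Fin n) :
    ∑ D ∈ univ.filter (fun D : Finset (Pr n) => D.card ≤ T ∧
        (Fa m M (D \ st x) ∧ ¬ Fa m M D ∧ Q D x)), nu D ≤
      ((Fintype.card (Pr n) : ℝ) / ((Fintype.card (Pr n) : ℝ) - T)) ^ (n - 1) *
        ∑ A ∈ univ.filter (fun A : Finset (Pr n) => A.card ≤ T ∧ (FC m M A x ∧ Q A x)), nu A := by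
  have h0 : (0 : ℝ) < (Fintype.card (Pr n) : ℝ) - T := by
    have : (T : ℝ) < Fintype.card (Pr n) := by exact_mod_cast hT
    linarith
  have hr : (1 : ℝ) ≤ (Fintype.card (Pr n) : ℝ) / ((Fintype.card (Pr n) : ℝ) - T) := by
    rw [one_le_div h0]
    have : (0 : ℝ) ≤ T := by positivity
    linarith
  have hex : ∀ D : Finset (Pr n), ∃ A : Finset (Pr n),
      (Fa m M (D \ st x) ∧ ¬ Fa m M D ∧ Q D x) → A ⊆ D ∧ D \ st x ⊆ A ∧ FC m M A x ∧ Q A x := by
    intro D
    by_cases h : Fa m M (D \ st x) ∧ ¬ Fa m M D ∧ Q D x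
    · obtain ⟨A, hA⟩ := exists_min m M hQ D x h.1 h.2.1 h.2.2
      exact ⟨A, fun _ => hA⟩
    · exact ⟨D, fun h' => absurd h' h⟩
  choose f hf using hex
  have h1 : ∑ D ∈ univ.filter (fun D : Finset (Pr n) => D.card ≤ T ∧
        (Fa m M (D \ st x) ∧ ¬ Fa m M D ∧ Q D x)), nu D ≤
      ∑ p ∈ (univ.filter (fun A : Finset (Pr n) => A.card ≤ T ∧ (FC m M A x ∧ Q A x))).sigma
        (fun A => (st x \ A).powerset.filter (fun Y => (A ∪ Y).card ≤ T)), nu (p.1 ∪ p.2) := by
    have hinj : Set.InjOn (fun D : Finset (Pr n) =>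
        (⟨f D, D \ f D⟩ : Σ _ : Finset (Pr n), Finset (Pr n)))
        (univ.filter (fun D : Finset (Pr n) => D.card ≤ T ∧
          (Fa m M (D \ st x) ∧ ¬ Fa m M D ∧ Q D x))) := by
      intro D hD D' hD' hDD
      have e1 := (Finset.mem_filter.1 (Finset.mem_coe.1 hD)).2.2
      have e2 := (Finset.mem_filter.1 (Finset.mem_coe.1 hD')).2.2
      have e3 := Finset.union_sdiff_of_subset (hf D e1).1
      have e4 := Finset.union_sdiff_of_subset (hf D' e2).1
      have e5 : f D = f D' := congrArg Sigma.fst hDD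
      have e6 : D \ f D = D' \ f D' := by
        have := eq_of_heq (Sigma.mk.inj hDD).2
        exact this
      rw [← e3, ← e4, e6, e5]
    calc _ = ∑ D ∈ univ.filter (fun D : Finset (Pr n) => D.card ≤ T ∧
          (Fa m M (D \ st x) ∧ ¬ Fa m M D ∧ Q D x)), nu (f D ∪ (D \ f D)) := by
          apply Finset.sum_congr rfl
          intro D hD
          have e1 := (Finset.mem_filter.1 hD).2.2
          rw [Finset.union_sdiff_of_subset (hf D e1).1]
      _ = ∑ p ∈ (univ.filter (fun D : Finset (Pr n) => D.card ≤ T ∧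
          (Fa m M (D \ st x) ∧ ¬ Fa m M D ∧ Q D x))).image (fun D : Finset (Pr n) =>
          (⟨f D, D \ f D⟩ : Σ _ : Finset (Pr n), Finset (Pr n))), nu (p.1 ∪ p.2) := by
          rw [Finset.sum_image hinj]
      _ ≤ _ := by
          apply Finset.sum_le_sum_of_subset_of_nonneg
          · intro p hp
            obtain ⟨D, hD, rfl⟩ := Finset.mem_image.1 hp
            obtain ⟨-, hDT, hD2⟩ := Finset.mem_filter.1 hD
            obtain ⟨g1, g2, g3, g4⟩ := hf D hD2
            rw [Finset.mem_sigma, Finset.mem_filter, Finset.mem_filter, Finset.mem_powerset]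
            refine ⟨⟨Finset.mem_univ _, (Finset.card_le_card g1).trans hDT, g3, g4⟩, ?_, ?_⟩
            · intro d hd
              rw [Finset.mem_sdiff] at hd ⊢
              refine ⟨?_, hd.2⟩
              by_contra hs
              exact hd.2 (g2 (Finset.mem_sdiff.2 ⟨hd.1, hs⟩))
            · rw [Finset.union_sdiff_of_subset g1]
              exact hDT
          · intro p _ _
            exact nu_nonneg _
  refine h1.trans ?_
  rw [Finset.sum_sigma, Finset.mul_sum]
  apply Finset.sum_le_sum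
  intro A _
  have h7 := sup_nu hT A (st x \ A) Finset.disjoint_sdiff
  refine le_trans (le_of_eq ?_) (h7.trans ?_)
  · congr!
  apply mul_le_mul_of_nonneg_right _ (nu_nonneg A)
  exact pow_le_pow_right₀ hr ((Finset.card_le_card Finset.sdiff_subset).trans (st_card_le x))

private theorem ratio_le (C n : ℕ) (hn : 4 * C + 2 ≤ n) : C * n < Fintype.card (Pr n) ∧
    ((Fintype.card (Pr n) : ℝ) / ((Fintype.card (Pr n) : ℝ) - (C * n : ℕ))) ^ (n - 1) ≤
      Real.exp (4 * C) := by
  have h2 : 2 * Fintype.card (Pr n) = n * (n - 1) := two_NN n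
  obtain ⟨k, rfl⟩ : ∃ k, n = k + 1 := ⟨n - 1, by omega⟩
  rw [Nat.add_sub_cancel] at h2 ⊢
  set N := Fintype.card (Pr (k + 1)) with hN
  have hk : 4 * C + 1 ≤ k := by omega
  have h3 : 2 * (C * (k + 1)) < N := by
    have : 2 * (2 * (C * (k + 1))) < 2 * N := by
      rw [h2]
      nlinarith
    omega
  have h4 : (2 : ℝ) * N = (k + 1) * k := by exact_mod_cast h2
  have h5 : 2 * ((C : ℝ) * (k + 1)) < N := by exact_mod_cast h3
  refine ⟨by omega, ?_⟩
  push_cast
  have hCk : (0 : ℝ) ≤ (C : ℝ) * (k + 1) := by positivity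
  have h0 : (0 : ℝ) < (N : ℝ) - C * (k + 1) := by linarith
  have h6 : (N : ℝ) / ((N : ℝ) - C * (k + 1)) ≤ Real.exp ((C * (k + 1)) / ((N : ℝ) - C * (k + 1))) := by
    have e1 : (N : ℝ) / ((N : ℝ) - C * (k + 1)) = (C * (k + 1)) / ((N : ℝ) - C * (k + 1)) + 1 := by
      field_simp
      ring
    rw [e1]
    exact Real.add_one_le_exp _
  calc ((N : ℝ) / ((N : ℝ) - C * (k + 1))) ^ k
      ≤ (Real.exp ((C * (k + 1)) / ((N : ℝ) - C * (k + 1)))) ^ k :=
        pow_le_pow_left₀ (div_nonneg (by positivity) h0.le) h6 k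
    _ = Real.exp (k * ((C * (k + 1)) / ((N : ℝ) - C * (k + 1)))) := by
        rw [← Real.exp_nat_mul]
    _ ≤ Real.exp (4 * C) := by
        apply Real.exp_le_exp.2
        rw [← mul_div_assoc, div_le_iff₀ h0]
        have e2 : (k : ℝ) * (C * (k + 1)) = 2 * C * N := by linear_combination (-(C : ℝ)) * h4
        rw [e2]
        have hC0 : (0 : ℝ) ≤ C := by positivity
        nlinarith [mul_nonneg hC0 (by linarith : (0 : ℝ) ≤ N - 2 * (C * (k + 1)))]

private theorem swap {n : ℕ} (T : ℕ) (R : Finset (Pr n) → Fin n → Prop) :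
    ∑ D ∈ univ.filter (fun D : Finset (Pr n) => D.card ≤ T),
      nu D * ((univ.filter (fun x => R D x)).card : ℝ) =
    ∑ x : Fin n, ∑ D ∈ univ.filter (fun D : Finset (Pr n) => D.card ≤ T ∧ R D x), nu D := by
  have h1 : ∀ D : Finset (Pr n), nu D * ((univ.filter (fun x => R D x)).card : ℝ) =
      ∑ x : Fin n, if R D x then nu D else 0 := by
    intro D
    rw [← Finset.sum_filter, Finset.sum_const, nsmul_eq_mul, mul_comm]
  rw [Finset.sum_congr rfl (fun D _ => h1 D), Finset.sum_comm]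
  apply Finset.sum_congr rfl
  intro x _
  rw [← Finset.sum_filter, Finset.filter_filter]

theorem smass_le (C : ℕ) (hC : 1 ≤ C) : ∃ C₁ : ℝ, 0 < C₁ ∧ ∃ n₀ : ℕ, ∀ n ≥ n₀, ∀ m M : ℕ,
    ∀ Q : Finset (Pr n) → Fin n → Prop, Hered Q →
      smass m M (C * n) Q ≤ C₁ * mass m M (C * n) Q := by
  refine ⟨Real.exp (4 * C), Real.exp_pos _, 4 * C + 2, ?_⟩
  intro n hn m M Q hQ
  obtain ⟨hT, hrat⟩ := ratio_le C n hn
  have s1 : smass m M (C * n) Q = n * ∑ x : Fin n, ∑ D ∈ univ.filter (fun D : Finset (Pr n) =>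
      D.card ≤ C * n ∧ (Fa m M (D \ st x) ∧ ¬ Fa m M D ∧ Q D x)), nu D := by
    rw [smass]
    congr 1
    refine Eq.trans ?_ ((swap (C * n)
      (fun D x => Fa m M (D \ st x) ∧ ¬ Fa m M D ∧ Q D x)).trans ?_) <;> congr!
  have s2 : mass m M (C * n) Q = n * ∑ x : Fin n, ∑ D ∈ univ.filter (fun D : Finset (Pr n) =>
      D.card ≤ C * n ∧ (FC m M D x ∧ Q D x)), nu D := by
    rw [mass]
    congr 1
    refine Eq.trans ?_ ((swap (C * n) (fun D x => FC m M D x ∧ Q D x)).trans ?_) <;> congr!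
  rw [s1, s2, ← mul_assoc, mul_comm (Real.exp _), mul_assoc]
  apply mul_le_mul_of_nonneg_left _ (by positivity)
  rw [Finset.mul_sum]
  apply Finset.sum_le_sum
  intro x _
  refine (per_vertex m M (C * n) hT hQ x).trans ?_
  apply mul_le_mul_of_nonneg_right hrat
  exact Finset.sum_nonneg (fun A _ => nu_nonneg A)

end Pool.Agent.Work.MP_73831e_pr.F
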