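import Pool.Agent.Work.MP_73831e_pr.F.S2.Nu

/-!
MODULE S2/Flux (S-M).  Mass of fully critical pairs and flux of exit pairs.

For `(D, x)` counted in `mass` choose `e ∈ D`, `x ∈ e` with `B (D.erase e) e` (`hB`).  Then `D.erase e`
is in `Fa`, and `e` has two ends, so for fixed `D`
`#{x | FC D x ∧ Q D x} ≤ 2 #{e ∈ D | Fa (D.erase e) ∧ ¬ Fa D ∧ B (D.erase e) e}`.
Substitute `E = D.erase e`, `D = insert e E`, `|E| + 1 ≤ T = C n`, and use `nu_insert`:
`nu D = (|E| + 1) / (N + 1) * wf E ≤ C n / (N + 1) * wf E`.  Together the factor is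
`2 n * C n / (N + 1) ≤ 8 C` since `n ^ 2 ≤ 4 (N + 1) = 2 n (n - 1) + 4`.
-/

open Finset
open scoped Classical Nat

namespace Pool.Agent.Work.MP_73831e_pr.F

private theorem two_ends {n : ℕ} (e : Pr n) : (univ.filter (fun x : Fin n => x ∈ e.1)).card ≤ 2 := by
  obtain ⟨s, hs⟩ := e
  induction s using Sym2.ind with
  | _ a b =>
    have h1 : (univ.filter (fun x : Fin n => x ∈ s(a, b))) ⊆ {a, b} := by
      intro x hx
      rw [mem_filter] at hx
      rw [mem_insert, mem_singleton]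
      exact Sym2.mem_iff.1 hx.2
    exact (card_le_card h1).trans card_le_two

private theorem flux_card {n m M : ℕ} {Q : Finset (Pr n) → Fin n → Prop}
    {B : Finset (Pr n) → Pr n → Prop}
    (hB : ∀ D x, FC m M D x → Q D x → ∃ e ∈ D, x ∈ e.1 ∧ B (D.erase e) e) (D : Finset (Pr n)) :
    (univ.filter (fun x => FC m M D x ∧ Q D x)).card ≤
      2 * (D.filter (fun e => Fa m M (D.erase e) ∧ ¬ Fa m M D ∧ B (D.erase e) e)).card := by
  have h1 : univ.filter (fun x => FC m M D x ∧ Q D x) ⊆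
      (D.filter (fun e => Fa m M (D.erase e) ∧ ¬ Fa m M D ∧ B (D.erase e) e)).biUnion
        (fun e => univ.filter (fun x : Fin n => x ∈ e.1)) := by
    intro x hx
    rw [mem_filter] at hx
    obtain ⟨-, hx1, hx2⟩ := hx
    obtain ⟨e, he, hxe, hb⟩ := hB D x hx1 hx2
    rw [mem_biUnion]
    exact ⟨e, mem_filter.2 ⟨he, hx1.2.2 e he hxe, hx1.1, hb⟩, mem_filter.2 ⟨mem_univ _, hxe⟩⟩
  refine (card_le_card h1).trans (card_biUnion_le.trans ?_)
  refine (sum_le_sum fun e _ => two_ends e).trans ?_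
  rw [sum_const, smul_eq_mul, mul_comm]

theorem mass_flux {n m M C : ℕ} {Q : Finset (Pr n) → Fin n → Prop}
    {B : Finset (Pr n) → Pr n → Prop}
    (hB : ∀ D x, FC m M D x → Q D x → ∃ e ∈ D, x ∈ e.1 ∧ B (D.erase e) e) :
    mass m M (C * n) Q ≤ 8 * C * Wf (fun (E : Finset (Pr n)) e =>
      Fa m M E ∧ ¬ Fa m M (insert e E) ∧ E.card < C * n ∧ B E e) := by
  have hNN : (n : ℝ) ^ 2 ≤ 4 * ((Fintype.card (Pr n) : ℝ) + 1) := by
    have h1 : 2 * NN n = n * (n - 1) := two_NN n
    have h2 : Fintype.card (Pr n) = NN n := rfl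
    rw [h2]
    have h3 : n ^ 2 ≤ 4 * (NN n + 1) := by
      rcases Nat.eq_zero_or_pos n with h0 | h0
      · subst h0
        simp
      · obtain ⟨k, rfl⟩ : ∃ k, n = k + 1 := ⟨n - 1, by omega⟩
        rw [Nat.add_sub_cancel] at h1
        nlinarith
    exact_mod_cast h3
  set N1 : ℝ := (Fintype.card (Pr n) : ℝ) + 1 with hN1
  have hN1pos : 0 < N1 := by positivity
  have h2 : ∑ D ∈ univ.filter (fun D : Finset (Pr n) => D.card ≤ C * n),
      ∑ _e ∈ D.filter (fun e => Fa m M (D.erase e) ∧ ¬ Fa m M D ∧ B (D.erase e) e), nu D =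
      ∑ E : Finset (Pr n), ∑ e ∈ univ.filter (fun e => e ∉ E ∧ (Fa m M E ∧ ¬ Fa m M (insert e E) ∧
        E.card < C * n ∧ B E e)), nu (insert e E) := by
    rw [sum_sigma', sum_sigma']
    refine sum_nbij' (fun p => ⟨p.1.erase p.2, p.2⟩) (fun p => ⟨insert p.2 p.1, p.2⟩) ?_ ?_ ?_ ?_ ?_
    · rintro ⟨D, e⟩ h
      simp only [mem_sigma, mem_filter, mem_univ, true_and] at h ⊢
      obtain ⟨h1, h2, h3, h4, h5⟩ := h
      refine ⟨notMem_erase e D, h3, ?_, ?_, h5⟩
      · rw [insert_erase h2]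
        exact h4
      · have := card_erase_lt_of_mem h2
        omega
    · rintro ⟨E, e⟩ h
      simp only [mem_sigma, mem_filter, mem_univ, true_and] at h ⊢
      obtain ⟨h1, h2, h3, h4, h5⟩ := h
      rw [card_insert_of_notMem h1, erase_insert h1]
      exact ⟨by omega, mem_insert_self _ _, h2, h3, h5⟩
    · rintro ⟨D, e⟩ h
      simp only [mem_sigma, mem_filter, mem_univ, true_and] at h
      simp only [insert_erase h.2.1]
    · rintro ⟨E, e⟩ h
      simp only [mem_sigma, mem_filter, mem_univ, true_and] at h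
      simp only [erase_insert h.1]
    · rintro ⟨D, e⟩ h
      simp only [mem_sigma, mem_filter, mem_univ, true_and] at h
      simp only [insert_erase h.2.1]
  have h3 : ∑ E : Finset (Pr n), ∑ e ∈ univ.filter (fun e => e ∉ E ∧ (Fa m M E ∧
        ¬ Fa m M (insert e E) ∧ E.card < C * n ∧ B E e)), nu (insert e E) ≤
      ((C : ℝ) * n / N1) * Wf (fun (E : Finset (Pr n)) e =>
      Fa m M E ∧ ¬ Fa m M (insert e E) ∧ E.card < C * n ∧ B E e) := by
    rw [Wf, mul_sum]
    refine sum_le_sum fun E _ => ?_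
    rw [mul_sum]
    refine le_of_le_of_eq (b := ∑ _e ∈ univ.filter (fun e => e ∉ E ∧ (Fa m M E ∧
        ¬ Fa m M (insert e E) ∧ E.card < C * n ∧ B E e)), ((C : ℝ) * n / N1) * wf E)
      (Finset.sum_le_sum fun e he => ?_) (by congr)
    rw [mem_filter] at he
    have h9 : nu (insert e E) = ((E.card : ℝ) + 1) / N1 * wf E := by
      rw [hN1, ← nu_insert he.2.1]
      congr!
    rw [h9]
    refine mul_le_mul_of_nonneg_right ?_ (wf_nonneg E)
    refine div_le_div_of_nonneg_right ?_ hN1pos.le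
    have h4 : E.card + 1 ≤ C * n := he.2.2.2.2.1
    exact_mod_cast h4
  have hW : 0 ≤ Wf (fun (E : Finset (Pr n)) e =>
      Fa m M E ∧ ¬ Fa m M (insert e E) ∧ E.card < C * n ∧ B E e) := by
    unfold Wf
    refine Finset.sum_nonneg fun E _ => ?_
    refine Finset.sum_nonneg fun e _ => ?_
    exact wf_nonneg E
  calc mass m M (C * n) Q
      ≤ n * ∑ D ∈ univ.filter (fun D : Finset (Pr n) => D.card ≤ C * n),
          (2 * ∑ _e ∈ D.filter (fun e => Fa m M (D.erase e) ∧ ¬ Fa m M D ∧ B (D.erase e) e),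
            nu D) := by
        rw [mass]
        refine mul_le_mul_of_nonneg_left (sum_le_sum fun D _ => ?_) (Nat.cast_nonneg n)
        rw [sum_const, nsmul_eq_mul]
        have h5 : ((univ.filter (fun x => FC m M D x ∧ Q D x)).card : ℝ) ≤
            2 * ((D.filter (fun e => Fa m M (D.erase e) ∧ ¬ Fa m M D ∧
              B (D.erase e) e)).card : ℝ) := by
          exact_mod_cast flux_card hB D
        calc nu D * ((univ.filter (fun x => FC m M D x ∧ Q D x)).card : ℝ)
            ≤ nu D * (2 * ((D.filter (fun e => Fa m M (D.erase e) ∧ ¬ Fa m M D ∧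
              B (D.erase e) e)).card : ℝ)) := mul_le_mul_of_nonneg_left h5 (nu_nonneg D)
          _ = _ := by ring
    _ = (n * 2) * ∑ D ∈ univ.filter (fun D : Finset (Pr n) => D.card ≤ C * n),
          ∑ _e ∈ D.filter (fun e => Fa m M (D.erase e) ∧ ¬ Fa m M D ∧ B (D.erase e) e),
            nu D := by
        rw [← mul_sum, mul_assoc]
    _ ≤ (n * 2) * (((C : ℝ) * n / N1) * Wf (fun (E : Finset (Pr n)) e =>
      Fa m M E ∧ ¬ Fa m M (insert e E) ∧ E.card < C * n ∧ B E e)) := by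
        rw [h2]
        exact mul_le_mul_of_nonneg_left h3 (by positivity)
    _ = (2 * C * ((n : ℝ) ^ 2 / N1)) * Wf (fun (E : Finset (Pr n)) e =>
      Fa m M E ∧ ¬ Fa m M (insert e E) ∧ E.card < C * n ∧ B E e) := by ring
    _ ≤ (8 * C) * Wf (fun (E : Finset (Pr n)) e =>
      Fa m M E ∧ ¬ Fa m M (insert e E) ∧ E.card < C * n ∧ B E e) := by
        refine mul_le_mul_of_nonneg_right ?_ hW
        have h6 : (n : ℝ) ^ 2 / N1 ≤ 4 := by
          rw [div_le_iff₀ hN1pos]
          exact hNN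
        have h7 : (0 : ℝ) ≤ C := Nat.cast_nonneg C
        nlinarith

end Pool.Agent.Work.MP_73831e_pr.F
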