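import Pool.Agent.Work.MP_73831e_pr.F.Mass

/-!
MODULE S2/Nu (S).  Elementary facts on the weights.

`nu_insert`: with `e = |E|`, `N = |P|`: `nu (insert x E) = (e+1)! (N-e-1)! / (N+1)!` and
`wf E = e! (N-e-1)! / N!` (`x ∉ E` gives `e < N`; here `N - e - 1 = N - (e + 1)`).
`mass_mono`, `smass_mono`, `mass_split`: monotonicity and subadditivity in `Q`.
`card_NN`: `Fintype.card (Pr n) = NN n` by definition; `two_NN : 2 * NN n = n * (n - 1)` is in Basic.
-/

open Finset
open scoped Classical Nat

namespace Pool.Agent.Work.MP_73831e_pr.F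

theorem nu_nonneg {P : Type} [Fintype P] (E : Finset P) : 0 ≤ nu E := by
  unfold nu
  positivity

theorem wf_nonneg {P : Type} [Fintype P] (E : Finset P) : 0 ≤ wf E := by
  unfold wf
  positivity

private theorem nu_fle {α : Type} [Fintype α] {p q : α → Prop} {_ : DecidablePred p}
    {_ : DecidablePred q} (h : ∀ x, p x → q x) :
    (((univ.filter p).card : ℕ) : ℝ) ≤ ((univ.filter q).card : ℕ) := by
  have h1 : univ.filter p ⊆ univ.filter q := fun x hx =>
    mem_filter.2 ⟨mem_univ _, h x (mem_filter.1 hx).2⟩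
  exact_mod_cast card_le_card h1

private theorem nu_fadd {α : Type} [Fintype α] {p q r : α → Prop} {_ : DecidablePred p}
    {_ : DecidablePred q} {_ : DecidablePred r} (h : ∀ x, p x → q x ∨ r x) :
    (((univ.filter p).card : ℕ) : ℝ) ≤
      ((univ.filter q).card : ℕ) + ((univ.filter r).card : ℕ) := by
  have h1 : univ.filter p ⊆ univ.filter q ∪ univ.filter r := fun x hx => by
    rw [mem_union, mem_filter, mem_filter]
    rcases h x (mem_filter.1 hx).2 with h2 | h2
    · exact Or.inl ⟨mem_univ _, h2⟩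
    · exact Or.inr ⟨mem_univ _, h2⟩
  exact_mod_cast (card_le_card h1).trans (card_union_le _ _)

private theorem nu_natCard {P : Type} [Fintype P] (A : Ordr P → Prop) :
    Nat.card {ω : Ordr P // A ω} = (univ.filter A).card := by
  rw [Nat.card_eq_fintype_card, Fintype.card_subtype]

theorem prob_mono {P : Type} [Fintype P] {A B : Ordr P → Prop} (h : ∀ ω, A ω → B ω) :
    prob A ≤ prob B := by
  unfold prob
  rw [nu_natCard, nu_natCard]
  refine div_le_div_of_nonneg_right ?_ (by positivity)
  exact nu_fle h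

theorem prob_or {P : Type} [Fintype P] (A B : Ordr P → Prop) :
    prob (fun ω => A ω ∨ B ω) ≤ prob A + prob B := by
  unfold prob
  rw [nu_natCard, nu_natCard, nu_natCard, ← add_div]
  refine div_le_div_of_nonneg_right ?_ (by positivity)
  exact nu_fadd fun _ h => h

theorem prob_nonneg {P : Type} [Fintype P] (A : Ordr P → Prop) : 0 ≤ prob A := by
  unfold prob
  positivity

theorem prob_le_one {P : Type} [Fintype P] (A : Ordr P → Prop) : prob A ≤ 1 := by
  unfold prob
  rw [nu_natCard]
  refine div_le_one_of_le₀ ?_ (by positivity)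
  have h1 : (univ.filter A).card ≤ Fintype.card (Ordr P) := card_le_univ _
  have h2 : Fintype.card (Ordr P) = (Fintype.card P)! := by
    have e : Fintype.card (Fin (Fintype.card P)) = Fintype.card P := Fintype.card_fin _
    rw [Fintype.card_equiv (Fintype.equivFin P).symm, Fintype.card_fin]
  rw [h2] at h1
  exact_mod_cast h1

theorem nu_insert {P : Type} [Fintype P] {E : Finset P} {x : P} (hx : x ∉ E) :
    nu (insert x E) = ((E.card : ℝ) + 1) / ((Fintype.card P : ℝ) + 1) * wf E := by
  unfold nu wf wt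
  rw [card_insert_of_notMem hx]
  have h1 : ((E.card + 1)! : ℝ) = ((E.card : ℝ) + 1) * (E.card ! : ℝ) := by
    rw [Nat.factorial_succ]
    push_cast
    ring
  have h2 : ((Fintype.card P + 1)! : ℝ) = ((Fintype.card P : ℝ) + 1) * ((Fintype.card P)! : ℝ) := by
    rw [Nat.factorial_succ]
    push_cast
    ring
  have h3 : ((Fintype.card P)! : ℝ) ≠ 0 := by positivity
  have h4 : ((Fintype.card P : ℝ) + 1) ≠ 0 := by positivity
  rw [h1, h2, show Fintype.card P - (E.card + 1) = Fintype.card P - E.card - 1 by omega]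
  push_cast
  field_simp

theorem mass_nonneg {n : ℕ} (m M T : ℕ) (Q : Finset (Pr n) → Fin n → Prop) :
    0 ≤ mass m M T Q := by
  unfold mass
  exact mul_nonneg (by positivity) (sum_nonneg fun D _ => mul_nonneg (nu_nonneg D) (by positivity))

theorem mass_mono {n : ℕ} {m M T : ℕ} {Q Q' : Finset (Pr n) → Fin n → Prop}
    (h : ∀ D x, D.card ≤ T → FC m M D x → Q D x → Q' D x) : mass m M T Q ≤ mass m M T Q' := by
  unfold mass
  refine mul_le_mul_of_nonneg_left (sum_le_sum fun D hD => ?_) (by positivity)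
  refine mul_le_mul_of_nonneg_left ?_ (nu_nonneg D)
  have hD' : D.card ≤ T := (mem_filter.1 hD).2
  exact nu_fle fun x hx => ⟨hx.1, h D x hD' hx.1 hx.2⟩

theorem smass_mono {n : ℕ} {m M T : ℕ} {Q Q' : Finset (Pr n) → Fin n → Prop}
    (h : ∀ D x, D.card ≤ T → Q D x → Q' D x) : smass m M T Q ≤ smass m M T Q' := by
  unfold smass
  refine mul_le_mul_of_nonneg_left (sum_le_sum fun D hD => ?_) (by positivity)
  refine mul_le_mul_of_nonneg_left ?_ (nu_nonneg D)
  have hD' : D.card ≤ T := (mem_filter.1 hD).2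
  exact nu_fle fun x hx => ⟨hx.1, hx.2.1, h D x hD' hx.2.2⟩

theorem mass_split {n : ℕ} {m M T : ℕ} (Q R : Finset (Pr n) → Fin n → Prop) :
    mass m M T Q ≤ mass m M T (fun D x => Q D x ∧ R D x) +
      mass m M T (fun D x => Q D x ∧ ¬ R D x) := by
  unfold mass
  rw [← mul_add, ← sum_add_distrib]
  refine mul_le_mul_of_nonneg_left (sum_le_sum fun D hD => ?_) (by positivity)
  rw [← mul_add]
  refine mul_le_mul_of_nonneg_left ?_ (nu_nonneg D)
  refine nu_fadd fun x hx => ?_
  by_cases h4 : R D x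
  · exact Or.inl ⟨hx.1, hx.2, h4⟩
  · exact Or.inr ⟨hx.1, hx.2, h4⟩

end Pool.Agent.Work.MP_73831e_pr.F
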