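import Pool.Agent.Work.MP_73831e_pr.F.S2.Nu

/-!
MODULE S2/SupNu (S-M, abstract).  Superset bound for `nu`.

Let `N = |P|`, `d = |D|`, `Y ⊆ S` with `|Y| = j`, `S` disjoint from `D`, `d + j ≤ T < N`.  Then
`nu (D ∪ Y) / nu D = (d + j)! (N - d - j)! / (d! (N - d)!) = ∏_{i < j} (d + 1 + i) / (N - d - i)
 ≤ (T / (N - T)) ^ j` (for `i < j`: `d + 1 + i ≤ d + j ≤ T` and `N - d - i ≥ N - T`).  Sum over `Y ⊆ S`:
`∑_j C(|S|, j) (T / (N - T)) ^ j = (1 + T / (N - T)) ^ |S| = (N / (N - T)) ^ |S|`
(`Finset.sum_pow_mul_eq_add_pow` or `Finset.prod_one_add`).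
Suggestion: prove `nu (insert y D) ≤ T / (N - T) * nu D` for `y ∉ D`, `|D| + 1 ≤ T`, and do an
induction on `S` (`Finset.sum_powerset_insert`).
-/

open Finset
open scoped Classical Nat

namespace Pool.Agent.Work.MP_73831e_pr.F

private theorem nu_step {P : Type} [Fintype P] {T : ℕ} (hT : T < Fintype.card P) {E : Finset P}
    {y : P} (hy : y ∉ E) (hE : E.card + 1 ≤ T) :
    nu (insert y E) ≤ (T : ℝ) / ((Fintype.card P : ℝ) - T) * nu E := by
  obtain ⟨b, hb⟩ : ∃ b, Fintype.card P = E.card + 1 + b := ⟨Fintype.card P - (E.card + 1), by omega⟩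
  have h0 : (0 : ℝ) < (Fintype.card P : ℝ) - T := by
    have : (T : ℝ) < Fintype.card P := by exact_mod_cast hT
    linarith
  have hc : (insert y E).card = E.card + 1 := Finset.card_insert_of_notMem hy
  have h1 : Fintype.card P - (E.card + 1) = b := by omega
  have h2 : Fintype.card P - E.card = b + 1 := by omega
  rw [nu, nu, hc, h1, h2, Nat.factorial_succ, Nat.factorial_succ b, div_mul_div_comm,
    div_le_div_iff₀ (by positivity) (by positivity)]
  push_cast
  have h3 : ((E.card : ℝ) + 1) * ((Fintype.card P : ℝ) - T) ≤ T * ((b : ℝ) + 1) := by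
    have e1 : ((E.card : ℝ) + 1) ≤ T := by exact_mod_cast hE
    have e2 : (Fintype.card P : ℝ) = E.card + 1 + b := by
      rw [hb]
      push_cast
      ring
    have e3 : (0 : ℝ) ≤ (b : ℝ) := by positivity
    rw [e2]
    rw [e2] at h0
    nlinarith [mul_nonneg (sub_nonneg.2 e1) h0.le]
  have h4 : (0 : ℝ) ≤ (E.card ! : ℝ) * (b ! : ℝ) * ((Fintype.card P + 1)! : ℝ) := by positivity
  nlinarith [mul_le_mul_of_nonneg_right h3 h4]

theorem sup_nu {P : Type} [Fintype P] {T : ℕ} (hT : T < Fintype.card P) (D S : Finset P)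
    (hDS : Disjoint D S) :
    ∑ Y ∈ S.powerset.filter (fun Y => (D ∪ Y).card ≤ T), nu (D ∪ Y) ≤
      ((Fintype.card P : ℝ) / ((Fintype.card P : ℝ) - T)) ^ S.card * nu D := by
  have h0 : (0 : ℝ) < (Fintype.card P : ℝ) - T := by
    have : (T : ℝ) < Fintype.card P := by exact_mod_cast hT
    linarith
  have hr : (Fintype.card P : ℝ) / ((Fintype.card P : ℝ) - T) =
      1 + (T : ℝ) / ((Fintype.card P : ℝ) - T) := by
    field_simp
    ring
  rw [hr, Finset.sum_filter]
  induction S using Finset.induction_on with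
  | empty =>
    rw [Finset.powerset_empty, Finset.sum_singleton, Finset.card_empty, pow_zero, one_mul,
      Finset.union_empty]
    split_ifs
    · exact le_rfl
    · exact nu_nonneg D
  | insert s S hs ih =>
    have hD : Disjoint D S := hDS.mono_right (Finset.subset_insert _ _)
    have hsD : s ∉ D := fun h => (Finset.disjoint_left.1 hDS h) (Finset.mem_insert_self _ _)
    have ih' := ih hD
    rw [Finset.sum_powerset_insert hs, Finset.card_insert_of_notMem hs, pow_succ]
    have h1 : ∑ Y ∈ S.powerset, (if (D ∪ insert s Y).card ≤ T then nu (D ∪ insert s Y) else 0) ≤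
        (T : ℝ) / ((Fintype.card P : ℝ) - T) *
          ∑ Y ∈ S.powerset, (if (D ∪ Y).card ≤ T then nu (D ∪ Y) else 0) := by
      rw [Finset.mul_sum]
      apply Finset.sum_le_sum
      intro Y hY
      have hsY : s ∉ D ∪ Y := by
        rw [Finset.mem_union, not_or]
        exact ⟨hsD, fun h => hs (Finset.mem_powerset.1 hY h)⟩
      have e1 : D ∪ insert s Y = insert s (D ∪ Y) := Finset.union_insert _ _ _
      have e2 : (D ∪ insert s Y).card = (D ∪ Y).card + 1 := by
        rw [e1, Finset.card_insert_of_notMem hsY]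
      by_cases h : (D ∪ insert s Y).card ≤ T
      · rw [if_pos h, if_pos (by omega), e1]
        exact nu_step hT hsY (by omega)
      · rw [if_neg h]
        apply mul_nonneg (div_nonneg (by positivity) h0.le)
        split_ifs
        · exact nu_nonneg _
        · exact le_rfl
    have h2 : (0 : ℝ) ≤ (T : ℝ) / ((Fintype.card P : ℝ) - T) := div_nonneg (by positivity) h0.le
    calc _ ≤ (∑ Y ∈ S.powerset, (if (D ∪ Y).card ≤ T then nu (D ∪ Y) else 0)) +
          (T : ℝ) / ((Fintype.card P : ℝ) - T) *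
          ∑ Y ∈ S.powerset, (if (D ∪ Y).card ≤ T then nu (D ∪ Y) else 0) := by gcongr
      _ = (1 + (T : ℝ) / ((Fintype.card P : ℝ) - T)) *
          ∑ Y ∈ S.powerset, (if (D ∪ Y).card ≤ T then nu (D ∪ Y) else 0) := by ring
      _ ≤ (1 + (T : ℝ) / ((Fintype.card P : ℝ) - T)) *
          ((1 + (T : ℝ) / ((Fintype.card P : ℝ) - T)) ^ S.card * nu D) := by gcongr
      _ = _ := by ring

end Pool.Agent.Work.MP_73831e_pr.F
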