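import Pool.Agent.Work.MP_73831e_pr.F.S2.Nu
import Pool.Agent.Work.MP_73831e_pr.Transfer

/-!
MODULE S2/Time (S-M).  Total `wf`-weight of a family of graphs with at most `T` edges.

`#{ω | pre ω |E| = E} = |E|! (N - |E|)!` (`card_pre` in Transfer: times `N.choose |E|` it is `N!`), and
`wt E = |E|! (N - |E| - 1)! = #{ω | pre ω |E| = E} / (N - |E|)` for `|E| < N`.  So for `T < N`
`∑_{|E| ≤ T, A E} wf E = ∑_{t ≤ T} prob (A (pre ω t)) / (N - t) ≤ (T + 1) / (N - T) *
prob (∃ t ≤ T, A (pre ω t))`.  Second part: `T = C n`, `n (C n + 1) / (N - C n) ≤ 4 C` for `n` large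
(`N = n (n - 1) / 2`).
-/

open Finset
open scoped Classical Nat

namespace Pool.Agent.Work.MP_73831e_pr.F

private theorem wf_level {P : Type} [Fintype P] {t : ℕ} (ht : t < Fintype.card P)
    (A : Finset P → Prop) :
    ∑ E ∈ univ.filter (fun E : Finset P => E.card = t ∧ A E), wf E =
      prob (fun ω : Ordr P => A (pre ω t)) / ((Fintype.card P : ℝ) - t) := by
  set N := Fintype.card P with hN
  have h1 := transfer A t ht.le
  rw [← hN] at h1
  have h2 : ∀ E ∈ univ.filter (fun E : Finset P => E.card = t ∧ A E),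
      wf E = ((t ! : ℝ) * ((N - t - 1)! : ℝ)) / (N ! : ℝ) := by
    intro E hE
    rw [Finset.mem_filter] at hE
    rw [wf, wt, hE.2.1, ← hN]
    push_cast
    rfl
  rw [Finset.sum_congr rfl h2, Finset.sum_const, nsmul_eq_mul, prob, ← hN]
  have h3 : (N.choose t : ℝ) * ((t ! : ℝ) * ((N - t)! : ℝ)) = (N ! : ℝ) := by
    have := Nat.choose_mul_factorial_mul_factorial ht.le
    rw [← this]
    push_cast
    ring
  have h4 : ((N - t)! : ℝ) = ((N : ℝ) - t) * ((N - t - 1)! : ℝ) := by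
    obtain ⟨r, hr⟩ : ∃ r, N - t = r + 1 := ⟨N - t - 1, by omega⟩
    have h5 : ((N : ℝ) - t) = ((r + 1 : ℕ) : ℝ) := by
      rw [← hr, Nat.cast_sub ht.le]
    rw [h5, hr, Nat.factorial_succ, Nat.add_sub_cancel]
    push_cast
    ring
  have hpos : (0 : ℝ) < (N : ℝ) - t := by
    have : (t : ℝ) < N := by exact_mod_cast ht
    linarith
  have hf1 : (0 : ℝ) < (N ! : ℝ) := by exact_mod_cast Nat.factorial_pos N
  have hf2 : (0 : ℝ) < ((N - t - 1)! : ℝ) := by exact_mod_cast Nat.factorial_pos _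
  have hf3 : (0 : ℝ) < (t ! : ℝ) := by exact_mod_cast Nat.factorial_pos t
  have h6 : (Nat.card {ω : Ordr P // A (pre ω t)} : ℝ) * (N.choose t : ℝ) =
      ((univ.filter (fun E : Finset P => E.card = t ∧ A E)).card : ℝ) * (N ! : ℝ) := by
    exact_mod_cast h1
  set c := (Nat.card {ω : Ordr P // A (pre ω t)} : ℝ)
  set d := ((univ.filter (fun E : Finset P => E.card = t ∧ A E)).card : ℝ)
  have h7 : c = d * ((t ! : ℝ) * (((N : ℝ) - t) * ((N - t - 1)! : ℝ))) := by
    have h8 : (0 : ℝ) < (N.choose t : ℝ) := by exact_mod_cast Nat.choose_pos ht.le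
    apply mul_right_cancel₀ h8.ne'
    rw [h6, ← h3, h4]
    ring
  rw [h7]
  field_simp

theorem wf_time' {P : Type} [Fintype P] {T : ℕ} (hT : T < Fintype.card P) (A : Finset P → Prop) :
    ∑ E ∈ univ.filter (fun E : Finset P => E.card ≤ T ∧ A E), wf E ≤
      ((T : ℝ) + 1) / ((Fintype.card P : ℝ) - T) *
        prob (fun ω : Ordr P => ∃ t ≤ T, A (pre ω t)) := by
  have h1 : ∑ E ∈ univ.filter (fun E : Finset P => E.card ≤ T ∧ A E), wf E =
      ∑ t ∈ range (T + 1), ∑ E ∈ univ.filter (fun E : Finset P => E.card = t ∧ A E), wf E := by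
    rw [← Finset.sum_fiberwise_of_maps_to (s := univ.filter (fun E : Finset P => E.card ≤ T ∧ A E))
      (t := range (T + 1)) (g := fun E => E.card)
      (fun E hE => Finset.mem_range.2 (Nat.lt_succ_of_le (Finset.mem_filter.1 hE).2.1))]
    refine Finset.sum_congr rfl fun t ht => ?_
    have h2 : (univ.filter (fun E : Finset P => E.card ≤ T ∧ A E)).filter (fun E => E.card = t) =
        univ.filter (fun E : Finset P => E.card = t ∧ A E) := by
      ext E
      simp only [Finset.mem_filter, Finset.mem_univ, true_and]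
      have ht' := Finset.mem_range.1 ht
      constructor
      · rintro ⟨⟨_, h4⟩, h5⟩
        exact ⟨h5, h4⟩
      · rintro ⟨h4, h5⟩
        exact ⟨⟨by omega, h5⟩, h4⟩
    rw [h2]
  rw [h1]
  have hpos : (0 : ℝ) < (Fintype.card P : ℝ) - T := by
    have : (T : ℝ) < Fintype.card P := by exact_mod_cast hT
    linarith
  have h2 : ∀ t ∈ range (T + 1),
      ∑ E ∈ univ.filter (fun E : Finset P => E.card = t ∧ A E), wf E ≤
        prob (fun ω : Ordr P => ∃ t ≤ T, A (pre ω t)) / ((Fintype.card P : ℝ) - T) := by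
    intro t ht
    have ht' : t ≤ T := Nat.lt_succ_iff.1 (Finset.mem_range.1 ht)
    rw [wf_level (lt_of_le_of_lt ht' hT) A]
    have h3 : prob (fun ω : Ordr P => A (pre ω t)) ≤
        prob (fun ω : Ordr P => ∃ t ≤ T, A (pre ω t)) := prob_mono fun ω h => ⟨t, ht', h⟩
    have h4 : (Fintype.card P : ℝ) - T ≤ (Fintype.card P : ℝ) - t := by
      have : (t : ℝ) ≤ T := by exact_mod_cast ht'
      linarith
    exact div_le_div₀ (prob_nonneg _) h3 hpos h4
  refine (Finset.sum_le_sum h2).trans (le_of_eq ?_)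
  rw [Finset.sum_const, Finset.card_range, nsmul_eq_mul]
  push_cast
  ring

theorem wf_time (C : ℕ) (hC : 1 ≤ C) : ∃ n₀ : ℕ, ∀ n ≥ n₀, ∀ A : Finset (Pr n) → Prop,
    n * ∑ E ∈ univ.filter (fun E : Finset (Pr n) => E.card ≤ C * n ∧ A E), wf E ≤
      4 * C * prob (fun ω : Ordr (Pr n) => ∃ t ≤ C * n, A (pre ω t)) := by
  refine ⟨4 * C + 4, fun n hn A => ?_⟩
  have hcard : Fintype.card (Pr n) = NN n := rfl
  have h2N := two_NN n
  have hn1 : 1 ≤ n := by omega
  have h2N' : 2 * ((Fintype.card (Pr n) : ℕ) : ℝ) = (n : ℝ) * ((n : ℝ) - 1) := by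
    rw [hcard]
    have : ((2 * NN n : ℕ) : ℝ) = ((n * (n - 1) : ℕ) : ℝ) := by rw [h2N]
    push_cast [Nat.cast_sub hn1] at this
    exact this
  have hnR : (4 * (C : ℝ) + 4) ≤ n := by exact_mod_cast hn
  have hC' : (1 : ℝ) ≤ C := by exact_mod_cast hC
  have hT : C * n < Fintype.card (Pr n) := by
    have : ((C * n : ℕ) : ℝ) < ((Fintype.card (Pr n) : ℕ) : ℝ) := by
      push_cast
      nlinarith
    exact_mod_cast this
  have h := wf_time' hT A
  have hp := prob_nonneg (fun ω : Ordr (Pr n) => ∃ t ≤ C * n, A (pre ω t))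
  set p := prob (fun ω : Ordr (Pr n) => ∃ t ≤ C * n, A (pre ω t))
  have hpos : (0 : ℝ) < ((Fintype.card (Pr n) : ℕ) : ℝ) - ((C * n : ℕ) : ℝ) := by
    have : ((C * n : ℕ) : ℝ) < ((Fintype.card (Pr n) : ℕ) : ℝ) := by exact_mod_cast hT
    linarith
  calc (n : ℝ) * ∑ E ∈ univ.filter (fun E : Finset (Pr n) => E.card ≤ C * n ∧ A E), wf E
      ≤ (n : ℝ) * (((((C * n : ℕ) : ℝ)) + 1) / ((Fintype.card (Pr n) : ℝ) - ((C * n : ℕ) : ℝ)) * p) :=
        mul_le_mul_of_nonneg_left h (Nat.cast_nonneg n)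
    _ = ((n : ℝ) * (((C * n : ℕ) : ℝ) + 1) / ((Fintype.card (Pr n) : ℝ) - ((C * n : ℕ) : ℝ))) * p := by
        ring
    _ ≤ (4 * C) * p := by
        refine mul_le_mul_of_nonneg_right ?_ hp
        rw [div_le_iff₀ hpos]
        push_cast
        have h3 : (n : ℝ) * ((C : ℝ) * n + 1) * 2 ≤ 4 * C * ((n : ℝ) * ((n : ℝ) - 1) - 2 * (C * n)) := by
          have h4 : ((C : ℝ) * n + 1) * 2 ≤ 4 * C * (((n : ℝ) - 1) - 2 * C) := by nlinarith
          have h5 : (0 : ℝ) ≤ n := Nat.cast_nonneg n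
          nlinarith
        nlinarith
    _ = 4 * C * p := rfl

end Pool.Agent.Work.MP_73831e_pr.F
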